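import Pool.Agent.PSS.StmtsS5

/-!
# Squad PSS, row STB: the twisted Brauer quotients of the corner
-/

open scoped BigOperators

noncomputable section

namespace Pool.Agent.PSS.H37

open Pool.Agent.PFC (tw IsTv)
open Pool.Agent.PSS.S5
open Pool.Agent.PSS.S0 (IsBQ)

/-- an intertwiner maps relative traces to relative traces -/
theorem BKR_map {R H1 H2 M1 M2 : Type} [CommRing R] [Group H1] [Group H2] [AddCommGroup M1]
    [Module R M1] [AddCommGroup M2] [Module R M2] (ρ1 : H1 →* (M1 →ₗ[R] M1))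
    (ρ2 : H2 →* (M2 →ₗ[R] M2)) (ι : H1 →* H2) (hι : Function.Injective ι) (T : M1 →ₗ[R] M2)
    (hT : ∀ h m, T (ρ1 h m) = ρ2 (ι h) (T m)) (P : Subgroup H1) {m : M1} (hm : m ∈ BKR ρ1 P) :
    T m ∈ BKR ρ2 (P.map ι) := by
  have hle : BKR ρ1 P ≤ (BKR ρ2 (P.map ι)).comap T := by
    refine Submodule.span_le.mpr ?_
    rintro _ ⟨P', S, m, hlt, hTv, hm, rfl⟩
    change T (∑ x ∈ S, ρ1 x m) ∈ BKR ρ2 (P.map ι)
    refine Submodule.subset_span ⟨P'.map ι, S.map ⟨ι, hι⟩, T m, ?_, ⟨?_, ?_⟩, ?_, ?_⟩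
    · refine lt_of_le_of_ne (Subgroup.map_mono hlt.le) fun h => ?_
      exact hlt.ne (Subgroup.map_injective hι h)
    · intro s hs
      obtain ⟨s0, hs0, rfl⟩ := Finset.mem_map.mp hs
      exact ⟨s0, hTv.1 s0 hs0, rfl⟩
    · rintro _ ⟨p0, hp0, rfl⟩
      obtain ⟨s0, ⟨hs0, hsp⟩, huniq⟩ := hTv.2 p0 hp0
      refine ⟨ι s0, ⟨Finset.mem_map.mpr ⟨s0, hs0, rfl⟩, ⟨s0⁻¹ * p0, hsp, by
        rw [map_mul, map_inv]⟩⟩, ?_⟩
      rintro _ ⟨hs, hs2⟩
      obtain ⟨s1, hs1, rfl⟩ := Finset.mem_map.mp hs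
      obtain ⟨q, hq, hq2⟩ := hs2
      have h1 : q = s1⁻¹ * p0 := hι (by
        rw [hq2, map_mul, map_inv]
        rfl)
      have h2 := huniq s1 ⟨hs1, h1 ▸ hq⟩
      show ι s1 = ι s0
      rw [h2]
    · rintro _ ⟨h, hh, rfl⟩
      rw [← hT, hm h hh]
    · rw [map_sum, Finset.sum_map]
      exact Finset.sum_congr rfl fun x _ => hT x m
  exact hle hm

section elem

variable {F V E A Y : Type} [Field F] [CommGroup V] [Group E] [Ring A] [Algebra F A]
  [Ring Y] [Algebra F Y]

theorem bw_apply (α : V →* A) (w : V × V) (a : A) : bw F α w a = α w.1 * a * α w.2⁻¹ := by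
  show α w.1 * (a * α w.2⁻¹) = _
  rw [mul_assoc]

theorem cw_apply (α : V →* A) (v : V) (a : A) : cw F α v a = α v * a * α v⁻¹ :=
  bw_apply α (v, v) a

theorem mem_cw {α : V →* A} {P : Subgroup V} {a : A} :
    a ∈ FxR (cw F α) P ↔ ∀ v ∈ P, α v * a = a * α v := by
  constructor
  · intro h v hv
    have h1 := h v hv
    rw [cw_apply] at h1
    calc α v * a = α v * a * (α v⁻¹ * α v) := by
          rw [← map_mul, inv_mul_cancel, map_one, mul_one]
      _ = (α v * a * α v⁻¹) * α v := by simp only [mul_assoc]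
      _ = a * α v := by rw [h1]
  · intro h v hv
    show cw F α v a = a
    rw [cw_apply, h v hv, mul_assoc, ← map_mul, mul_inv_cancel, map_one, mul_one]

theorem mem_bw {α : V →* A} {P : Subgroup (V × V)} {a : A} :
    a ∈ FxR (bw F α) P ↔ ∀ w ∈ P, α w.1 * a = a * α w.2 := by
  constructor
  · intro h w hw
    have h1 := h w hw
    rw [bw_apply] at h1
    calc α w.1 * a = α w.1 * a * (α w.2⁻¹ * α w.2) := by
          rw [← map_mul, inv_mul_cancel, map_one, mul_one]
      _ = (α w.1 * a * α w.2⁻¹) * α w.2 := by simp only [mul_assoc]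
      _ = a * α w.2 := by rw [h1]
  · intro h w hw
    show bw F α w a = a
    rw [bw_apply, h w hw, mul_assoc, ← map_mul, mul_inv_cancel, map_one, mul_one]

theorem Tk_ex {j : A} {αY : V →* Y} {κ : Y →ₗ[F] A} {α : V →* A} (h : CorV F α j αY κ)
    (hj : j * j = j) (b : A) : ∃ y, κ y = j * b * j :=
  h.ran (j * b * j) (by rw [← mul_assoc, ← mul_assoc, hj]) (by rw [mul_assoc, hj])

/-- `κ⁻¹ (j b j)` -/
def Tk {j : A} {αY : V →* Y} {κ : Y →ₗ[F] A} {α : V →* A} (h : CorV F α j αY κ) (hj : j * j = j) :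
    A →ₗ[F] Y where
  toFun := fun b => Classical.choose (Tk_ex h hj b)
  map_add' := by
    intro a b
    apply h.inj
    rw [map_add, Classical.choose_spec (Tk_ex h hj _), Classical.choose_spec (Tk_ex h hj _),
      Classical.choose_spec (Tk_ex h hj _), mul_add, add_mul]
  map_smul' := by
    intro c a
    apply h.inj
    rw [RingHom.id_apply, map_smul, Classical.choose_spec (Tk_ex h hj _),
      Classical.choose_spec (Tk_ex h hj _), mul_smul_comm, smul_mul_assoc]

theorem Tk_spec {j : A} {αY : V →* Y} {κ : Y →ₗ[F] A} {α : V →* A} (h : CorV F α j αY κ)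
    (hj : j * j = j) (b : A) : κ (Tk h hj b) = j * b * j :=
  Classical.choose_spec (Tk_ex h hj b)

/-- the centraliser of `R` in `E` -/
def CE (φ : E →* MulAut V) (R : Subgroup V) : Subgroup E where
  carrier := {x | ∀ r ∈ R, φ x r = r}
  one_mem' := by
    intro r _
    rw [map_one, MulAut.one_apply]
  mul_mem' := by
    intro x y hx hy r hr
    rw [map_mul, MulAut.mul_apply, hy r hr, hx r hr]
  inv_mem' := by
    intro x hx r hr
    rw [map_inv]
    conv_lhs => rw [← hx r hr]
    exact MulAut.inv_apply_self _ _ _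

end elem

/-- STB. -/
theorem stb (bor : BorStmt) (lbr : LbrStmt) (lcn : LcnStmt) (pcx : PcxStmt) (bcl : S0.BclStmt)
    (bqx : S0.BqxStmt) : StbStmt := by
  intro ℓ _ F V E A Y _ _ _ _ _ _ _ _ _ _ φ α j αY κ hV hE hCl hj hc e S hne
  obtain ⟨y₀, hy₀, hy₀n⟩ := SetLike.not_le_iff_exists.mp hne
  have hjj : j * j = j := hj.id
  have hjV : ∀ v, α v * j = j * α v := fun v => mem_cw.mp hj.fx v (Subgroup.mem_top v)
  have hκ1 : ∀ y, j * κ y = κ y := fun y => by
    rw [← hc.one, ← hc.mul, one_mul]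
  have hκ2 : ∀ y, κ y * j = κ y := fun y => by
    rw [← hc.one, ← hc.mul, mul_one]
  set a := κ y₀ with ha
  have haj : j * a = a := hκ1 y₀
  have haj2 : a * j = a := hκ2 y₀
  -- `a` is fixed by the twisted diagonal
  have hafix : ∀ s ∈ S, α (φ e s) * a = a * α s := by
    intro s hs
    have h1 := mem_bw.mp hy₀ (φ e s, s) ⟨s, hs, rfl⟩
    have h2 := congrArg κ h1
    rw [hc.mul, hc.mul, hc.cov, hc.cov] at h2
    calc α (φ e s) * a = α (φ e s) * j * κ y₀ := by rw [mul_assoc, hκ1]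
      _ = κ y₀ * (α s * j) := h2
      _ = a * α s := by rw [hjV, ← mul_assoc, hκ2]
  obtain ⟨g, g', hg1, hg2, hg3⟩ := hCl.uni e
  have hg4 : ∀ u, g' * α (φ e u) = α u * g' := by
    intro u
    calc g' * α (φ e u) = g' * α (φ e u) * (g * g') := by rw [hg1, mul_one]
      _ = g' * (α (φ e u) * g) * g' := by simp only [mul_assoc]
      _ = g' * (g * α u) * g' := by rw [hg3]
      _ = (g' * g) * α u * g' := by simp only [mul_assoc]
      _ = α u * g' := by rw [hg2, one_mul]
  set R : Subgroup V := S.map (φ e).toMonoidHom with hR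
  have hag : a * g' ∈ FxR (cw F α) R := by
    rw [mem_cw]
    rintro _ ⟨s, hs, rfl⟩
    show α (φ e s) * (a * g') = a * g' * α (φ e s)
    rw [← mul_assoc, hafix s hs, mul_assoc, mul_assoc, hg4]
  have hagn : a * g' ∉ BKR (cw F α) R := by
    intro hmem
    apply hy₀n
    -- right multiplication by `g`
    have h1 := BKR_map (cw F α) (bw F α) ((MonoidHom.id V).prod ((φ e)⁻¹).toMonoidHom)
      (fun x y hxy => (Prod.ext_iff.mp hxy).1) (LinearMap.mulRight F g) (by
        intro v m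
        rw [cw_apply, bw_apply]
        show α v * m * α v⁻¹ * g = α v * (m * g) * α ((φ e)⁻¹ v)⁻¹
        have h2 : α v⁻¹ * g = g * α ((φ e)⁻¹ v)⁻¹ := by
          rw [hg3, map_inv (φ e), MulAut.apply_inv_self]
        rw [mul_assoc, h2]
        simp only [mul_assoc]) R hmem
    have h3 : R.map ((MonoidHom.id V).prod ((φ e)⁻¹).toMonoidHom) = tw (φ e).toMonoidHom S := by
      rw [hR, Subgroup.map_map]
      unfold tw
      congr 1
      ext v
      · rfl
      · show (φ e)⁻¹ (φ e v) = v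
        exact MulAut.inv_apply_self _ _ _
    rw [h3] at h1
    have h4 : LinearMap.mulRight F g (a * g') = a := by
      show a * g' * g = a
      rw [mul_assoc, hg2, mul_one]
    rw [h4] at h1
    have h5 := BKR_map (bw F α) (bw F αY) (MonoidHom.id (V × V)) (fun x y hxy => hxy)
      (Tk hc hjj) (by
        intro w m
        apply hc.inj
        rw [Tk_spec, bw_apply]
        show _ = κ (bw F αY w (Tk hc hjj m))
        rw [bw_apply, hc.mul, hc.mul, Tk_spec, hc.cov, hc.cov]
        have e1 : α w.1 * j * (j * m * j) * (α w.2⁻¹ * j) =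
            α w.1 * (j * j) * m * (j * α w.2⁻¹) * j := by simp only [mul_assoc]
        rw [e1, hjj, ← hjV w.2⁻¹]
        rw [← mul_assoc j (α w.1 * m), ← mul_assoc j (α w.1), ← hjV w.1]
        have e2 : α w.1 * j * m * (α w.2⁻¹ * j) * j = α w.1 * j * m * α w.2⁻¹ * (j * j) := by
          simp only [mul_assoc]
        rw [e2, hjj]) (tw (φ e).toMonoidHom S) h1
    rw [Subgroup.map_id] at h5
    have h6 : Tk hc hjj a = y₀ := hc.inj (by rw [Tk_spec, haj, haj2])
    rw [h6] at h5
    exact h5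
  -- the Brauer quotient at `R`
  obtain ⟨B, _, _, αB, β, hB⟩ := bqx F V A α R
  have hCR : ∀ z ∈ FxR (cw F α) ⊤, z ∈ FxR (cw F α) R := fun z hz v _ => hz v (Subgroup.mem_top v)
  have hLcn := lcn F V A α (φ e) j g g' hj hg1 hg2 hg3
  set j₂ := g * j * g' with hj₂
  have hβ1 : β j * β (a * g') * β j₂ = β (a * g') := by
    have m1 : j * (a * g') ∈ FxR (cw F α) R := by
      rw [← mul_assoc, haj]; exact hag
    rw [← hB.mul _ (hCR _ hj.fx) _ hag, ← hB.mul _ m1 _ (hCR _ hLcn.fx)]
    congr 1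
    rw [← mul_assoc j a, haj, hj₂]
    calc a * g' * (g * j * g') = a * (g' * g) * j * g' := by simp only [mul_assoc]
      _ = a * g' := by rw [hg2, mul_one, haj2]
  have hβ2 : β (a * g') ≠ 0 := fun h => hagn ((hB.ker _ hag).mp h)
  -- the class of `B`
  have hClB := bcl ℓ F V E A B φ α R αB β (CE φ R) hV hE hCl hB (fun x => Iff.rfl)
  have := hClB.fin
  obtain ⟨n, b, hb1, hb2, hb3⟩ := pcx F B
  obtain ⟨lam, K, _, x, y, hRF, _⟩ := hCl.rt
  obtain ⟨lbr1, lbr2⟩ := lbr ℓ F V E A B K φ α R αB β lam x y hV hCl.per hRF hB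
  have hLj := lbr1 j hj
  have hLj₂ := lbr1 j₂ hLcn
  obtain ⟨i, hi⟩ : ∃ i, b i * β j ≠ 0 := by
    by_contra hcon
    push Not at hcon
    apply hβ2
    have h1 : β j = 0 := by
      calc β j = (∑ i, b i) * β j := by rw [hb3, one_mul]
        _ = 0 := by rw [Finset.sum_mul]; exact Finset.sum_eq_zero fun i _ => hcon i
    rw [← hβ1, h1, zero_mul, zero_mul]
  have hid : ∀ k : B, Loi F αB k → b i * k ≠ 0 → b i * k = k := by
    intro k hk hk0
    have hcen := (hb1 i).cen
    have hbi : b i ∈ FxR (cw F αB) ⊤ := mem_cw.mpr fun v _ => (hcen (αB v)).symm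
    have e1 : k * b i * k = b i * k := by
      rw [← hcen k, mul_assoc, hk.id]
    rcases hk.loc (b i) hbi with ⟨m, hm⟩ | ⟨y', _, h1, _⟩
    · exfalso
      apply hk0
      rw [e1] at hm
      have e2 : b i * k * (b i * k) = b i * k := by
        calc b i * k * (b i * k) = b i * (k * b i * k) := by simp only [mul_assoc]
          _ = b i * (b i * k) := by rw [e1]
          _ = b i * k := by rw [← mul_assoc, (hb1 i).id]
      have e3 : ∀ m, b i * k = 0 ∨ (b i * k) ^ (m + 1) = b i * k := by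
        intro m
        induction m with
        | zero => right; rw [pow_one]
        | succ m ih =>
          rcases ih with h | h
          · exact Or.inl h
          · right; rw [pow_succ, h, e2]
      rcases e3 m with h | h
      · exact h
      · rw [← h, pow_succ, hm, zero_mul]
    · rw [e1] at h1
      calc b i * k = b i * (b i * k * (k * y' * k)) := by rw [h1]
        _ = b i * b i * k * (k * y' * k) := by simp only [mul_assoc]
        _ = b i * k * (k * y' * k) := by rw [(hb1 i).id]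
        _ = k := h1
  have hbj : b i * β j = β j := hid _ hLj hi
  have hbj₂ : b i * β j₂ = β j₂ := by
    refine hid _ hLj₂ fun h0 => hβ2 ?_
    have hcen := (hb1 i).cen
    calc β (a * g') = β j * β (a * g') * β j₂ := hβ1.symm
      _ = b i * β j * β (a * g') * β j₂ := by rw [hbj]
      _ = b i * (β j * β (a * g')) * β j₂ := by simp only [mul_assoc]
      _ = (β j * β (a * g')) * (b i * β j₂) := by rw [hcen]; simp only [mul_assoc]
      _ = 0 := by rw [h0, mul_zero]
  obtain ⟨t, ht⟩ := bor ℓ F V (CE φ R) B (φ.comp (CE φ R).subtype) αB hV hClB (b i) (β j) (β j₂)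
    (hb1 i) hLj hLj₂ hbj hbj₂
  obtain ⟨m, m', hm1, hm2, hm3⟩ := hCl.uni (t : E)
  have hm4 : ∀ u, m' * α u = α ((φ (t : E))⁻¹ u) * m' := by
    intro u
    calc m' * α u = m' * α (φ (t : E) ((φ (t : E))⁻¹ u)) * (m * m') := by
          rw [hm1, mul_one, MulAut.apply_inv_self]
      _ = m' * (α (φ (t : E) ((φ (t : E))⁻¹ u)) * m) * m' := by simp only [mul_assoc]
      _ = m' * (m * α ((φ (t : E))⁻¹ u)) * m' := by rw [hm3]
      _ = (m' * m) * α ((φ (t : E))⁻¹ u) * m' := by simp only [mul_assoc]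
      _ = α ((φ (t : E))⁻¹ u) * m' := by rw [hm2, one_mul]
  have htR : ∀ r ∈ R, φ (t : E) r = r := t.2
  have htR' : ∀ r ∈ R, (φ (t : E))⁻¹ r = r := by
    intro r hr
    conv_lhs => rw [← htR r hr]
    exact MulAut.inv_apply_self _ _ _
  have hmR : m ∈ FxR (cw F α) R := mem_cw.mpr fun v hv => by rw [hm3, htR v hv]
  have hmR' : m' ∈ FxR (cw F α) R := mem_cw.mpr fun v hv => by rw [hm4, htR' v hv]
  have hαR : ∀ u, α u ∈ FxR (cw F α) R := fun u => mem_cw.mpr fun v _ => by
    rw [← map_mul, ← map_mul, mul_comm]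
  have hLm := lcn F V A α (φ (t : E)) j m m' hj hm1 hm2 hm3
  have hmj : m * j ∈ FxR (cw F α) R := mem_cw.mpr fun v hv => by
    have h1 := mem_cw.mp hmR v hv
    rw [← mul_assoc, h1, mul_assoc, hjV, mul_assoc]
  have hEq : Eqi F αB (β m * β j * β m') (β j₂) := by
    refine ht (β m) (β m') ?_ ?_ ?_
    · rw [← hB.mul _ hmR _ hmR', hm1, hB.one]
    · rw [← hB.mul _ hmR' _ hmR, hm2, hB.one]
    · intro u
      show β m * αB u = αB (φ (t : E) u) * β m
      rw [← hB.om, ← hB.om, ← hB.mul _ hmR _ (hαR u), ← hB.mul _ (hαR _) _ hmR, hm3]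
  rw [← hB.mul _ hmR _ (hCR _ hj.fx), ← hB.mul _ hmj _ hmR'] at hEq
  obtain ⟨p, hp, q, hq, h1, h2, h3, h4, h5, h6⟩ := lbr2 _ _ hLm hLcn hEq
  have hpV : ∀ v, α v * p = p * α v := fun v => mem_cw.mp hp v (Subgroup.mem_top v)
  -- the unit of the corner
  set z := m' * p * g with hz
  set z' := g' * q * m with hz'
  have hmp : j * m' * p = m' * p := by
    calc j * m' * p = (m' * m) * j * m' * p := by rw [hm2, one_mul]
      _ = m' * (m * j * m' * p) := by simp only [mul_assoc]
      _ = m' * p := by rw [h1]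
  have hjz : j * z = z := by
    calc j * z = j * m' * p * g := by rw [hz]; simp only [mul_assoc]
      _ = z := by rw [hmp]
  have hzj : z * j = z := by
    calc z * j = m' * p * g * j * (g' * g) := by rw [hg2, mul_one]
      _ = m' * (p * (g * j * g')) * g := by simp only [mul_assoc]
      _ = m' * p * g := by rw [h2]
  have hzz : z * z' = j := by
    calc z * z' = m' * p * (g * g') * q * m := by rw [hz, hz']; simp only [mul_assoc]
      _ = m' * (p * q) * m := by rw [hg1, mul_one]; simp only [mul_assoc]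
      _ = (m' * m) * j * (m' * m) := by rw [h5]; simp only [mul_assoc]
      _ = j := by rw [hm2, one_mul, mul_one]
  have hzz' : z' * z = j := by
    calc z' * z = g' * q * (m * m') * p * g := by rw [hz, hz']; simp only [mul_assoc]
      _ = g' * (q * p) * g := by rw [hm1, mul_one]; simp only [mul_assoc]
      _ = (g' * g) * j * (g' * g) := by rw [h6, hj₂]; simp only [mul_assoc]
      _ = j := by rw [hg2, one_mul, mul_one]
  have hjz' : j * z' = z' := by
    calc j * z' = (g' * g) * j * z' := by rw [hg2, one_mul]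
      _ = g' * (g * j * g' * q) * m := by rw [hz']; simp only [mul_assoc]
      _ = z' := by rw [h3]
  have hzj' : z' * j = z' := by
    calc z' * j = z' * j * (m' * m) := by rw [hm2, mul_one]
      _ = g' * (q * (m * j * m')) * m := by rw [hz']; simp only [mul_assoc]
      _ = z' := by rw [h4]
  have hzv : ∀ v, z * α v = α ((φ (t : E))⁻¹ (φ e v)) * z := by
    intro v
    calc z * α v = m' * p * (g * α v) := by rw [hz]; simp only [mul_assoc]
      _ = m' * (p * α (φ e v)) * g := by rw [hg3]; simp only [mul_assoc]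
      _ = m' * α (φ e v) * p * g := by rw [← hpV]; simp only [mul_assoc]
      _ = α ((φ (t : E))⁻¹ (φ e v)) * z := by rw [hm4, hz]; simp only [mul_assoc]
  obtain ⟨w, hw⟩ := hc.ran z hjz hzj
  obtain ⟨w', hw'⟩ := hc.ran z' hjz' hzj'
  refine ⟨(φ (t : E))⁻¹ * φ e, ⟨⟨(t : E)⁻¹ * e, by rw [map_mul, map_inv]⟩, w, w', ?_, ?_, ?_⟩, ?_⟩
  · apply hc.inj
    rw [hc.mul, hw, hw', hzz, hc.one]
  · apply hc.inj
    rw [hc.mul, hw, hw', hzz', hc.one]
  · intro u
    apply hc.inj
    rw [hc.mul, hc.mul, hc.cov, hc.cov, hw]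
    show z * (α u * j) = α ((φ (t : E))⁻¹ (φ e u)) * j * z
    rw [← mul_assoc, hzv, mul_assoc, hzj, mul_assoc, hjz]
  · intro s hs
    show (φ (t : E))⁻¹ (φ e s) = φ e s
    exact htR' _ ⟨s, hs, rfl⟩

end Pool.Agent.PSS.H37
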