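import Pool.Agent.PSS.StmtsS5

/-!
# Squad PSS, row TPL: a local corner of a relatively separable algebra over the central group algebra
-/

open scoped BigOperators

noncomputable section

namespace Pool.Agent.PSS.H37

open Pool.Agent.PSS.S5

/-- the left multiplications by `V` -/
def lmV {F V B : Type} [Field F] [CommGroup V] [Ring B] [Algebra F B] (α : V →* B) :
    V →* (B →ₗ[F] B) where
  toFun := fun v => LinearMap.mulLeft F (α v)
  map_one' := by
    ext b
    simp
  map_mul' := by
    intro v w
    ext b
    simp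

/-- the elements `d` with `j d = d = d j` -/
def Dj {F B : Type} [Field F] [Ring B] [Algebra F B] (j : B) : Submodule F B where
  carrier := {d | j * d = d ∧ d * j = d}
  add_mem' := by
    rintro a b ⟨h1, h2⟩ ⟨h3, h4⟩
    exact ⟨by rw [mul_add, h1, h3], by rw [add_mul, h2, h4]⟩
  zero_mem' := ⟨mul_zero j, zero_mul j⟩
  smul_mem' := by
    rintro c a ⟨h1, h2⟩
    exact ⟨by rw [mul_smul_comm, h1], by rw [smul_mul_assoc, h2]⟩

/-- the elements `d` with `j d = d` -/
def Rj {F B : Type} [Field F] [Ring B] [Algebra F B] (j : B) : Submodule F B where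
  carrier := {d | j * d = d}
  add_mem' := by
    intro a b h1 h3
    show j * (a + b) = a + b
    rw [mul_add, h1, h3]
  zero_mem' := mul_zero j
  smul_mem' := by
    intro c a h1
    show j * (c • a) = c • a
    rw [mul_smul_comm, h1]

theorem nil_of {B : Type} [Ring B] {j n m : B} (h1 : j * n = n) (h2 : n * j = n) (k : ℕ) :
    (n * m) ^ (k + 1) = n * (j * m * j * n) ^ k * m := by
  have hX : ∀ k, n * (j * m * j * n) ^ k * j = n * (j * m * j * n) ^ k := by
    intro k
    cases k with
    | zero => rw [pow_zero, mul_one, h2]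
    | succ k => rw [pow_succ, mul_assoc, mul_assoc, mul_assoc (j * m * j), h2]
  induction k with
  | zero => simp
  | succ k ih =>
    have e : (j * m * j * n) ^ (k + 1) = (j * m * j * n) ^ k * (j * m * j * n) := pow_succ _ _
    have e3 : j * m * j * n = j * (m * n) := by
      rw [mul_assoc (j * m), h1, mul_assoc]
    calc (n * m) ^ (k + 1 + 1) = (n * m) ^ (k + 1) * (n * m) := pow_succ _ _
      _ = n * (j * m * j * n) ^ k * m * (n * m) := by rw [ih]
      _ = n * (j * m * j * n) ^ k * (m * n) * m := by simp only [mul_assoc]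
      _ = n * (j * m * j * n) ^ k * j * (m * n) * m := by rw [hX k]
      _ = n * (j * m * j * n) ^ k * (j * (m * n)) * m := by
          rw [mul_assoc (n * (j * m * j * n) ^ k) j (m * n)]
      _ = n * (j * m * j * n) ^ k * (j * m * j * n) * m := by rw [← e3]
      _ = n * (j * m * j * n) ^ (k + 1) * m := by rw [e, mul_assoc n]

/-- TPL. -/
theorem tpl (sgn : SgnStmt) (nak : NakStmt) : TplStmt := by
  intro ℓ _ F V B K _ _ _ _ _ _ _ _ _ α lam x y u j hV hcen hRF hu hjj hj0 hloc
  classical
  have hfin : Finite V := inferInstance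
  set σ : B := ∑ v, α v with hσ
  have hσc : ∀ b, σ * b = b * σ := fun b => by
    rw [hσ, Finset.sum_mul, Finset.mul_sum]
    exact Finset.sum_congr rfl fun v _ => hcen v b
  -- elements of the corner
  have hDmem : ∀ a, j * a * j ∈ (Dj (F := F) j) := fun a =>
    ⟨by rw [← mul_assoc, ← mul_assoc, hjj], by rw [mul_assoc, hjj]⟩
  have hDeq : ∀ d ∈ (Dj (F := F) j), j * d * j = d := fun d hd => by rw [hd.1, hd.2]
  -- (1)
  have hnil : ∀ n ∈ (Dj (F := F) j), IsNilpotent n → ∀ m, IsNilpotent (n * m) := by
    intro n hn hnn m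
    have h1 : j * n = n := hn.1
    have h2 : n * j = n := hn.2
    have h3 : IsNilpotent (j * m * j * n) := by
      have e : j * m * j * n = j * (m * j * n) * j := by
        rw [mul_assoc j (m * j * n) j, mul_assoc (m * j) n j, h2]
        simp only [mul_assoc]
      rw [e]
      rcases hloc (m * j * n) with h | ⟨a', _, ha'⟩
      · exact h
      · exfalso
        -- a left inverse of `n`
        set t := j * a' * j * (j * m * j) with ht
        have htn : t * n = j := by
          calc t * n = j * a' * j * (j * m * j * n) := by rw [ht, mul_assoc]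
            _ = j * a' * j * (j * (m * j * n) * j) := by rw [← e]
            _ = j := ha'
        obtain ⟨k, hk⟩ := hnn
        have : ∀ k, n ^ k = 0 → j = 0 := by
          intro k
          induction k with
          | zero =>
            intro h0
            rw [pow_zero] at h0
            rw [← mul_one j, h0, mul_zero]
          | succ k ih =>
            intro h0
            have h4 : j * n ^ k = 0 := by
              rw [← htn, mul_assoc, ← pow_succ', h0, mul_zero]
            by_cases hk0 : k = 0
            · rw [hk0, pow_zero, mul_one] at h4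
              exact h4
            · obtain ⟨l, rfl⟩ := Nat.exists_eq_succ_of_ne_zero hk0
              apply ih
              rw [Nat.succ_eq_add_one, pow_succ', ← mul_assoc, h1, ← pow_succ'] at h4
              exact h4
        exact hj0 (this k hk)
    obtain ⟨k, hk⟩ := h3
    exact ⟨k + 1, by rw [nil_of h1 h2, hk, mul_zero, zero_mul]⟩
  -- (2)
  have hσn : ∀ n ∈ (Dj (F := F) j), IsNilpotent n → σ * n = 0 := fun n hn hnn =>
    sgn F V B K α lam x y u n hcen hRF hu (hnil n hn hnn)
  -- (3)
  have hjD : j ∈ (Dj (F := F) j) := ⟨hjj, hjj⟩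
  have heig : ∀ d ∈ (Dj (F := F) j), ∃ t : F, IsNilpotent (d - t • j) := by
    intro d hd
    have hmap : ∀ s ∈ Rj (F := F) j, LinearMap.mulLeft F d s ∈ Rj (F := F) j := by
      intro s hs
      show j * (d * s) = d * s
      rw [← mul_assoc, hd.1]
    have hnt : Nontrivial (Rj (F := F) j) :=
      ⟨⟨⟨j, hjj⟩, 0, fun h => hj0 (congrArg Subtype.val h)⟩⟩
    obtain ⟨t, ht⟩ := Module.End.exists_eigenvalue
      ((LinearMap.mulLeft F d).restrict hmap : Module.End F (Rj (F := F) j))
    obtain ⟨s, hs⟩ := ht.exists_hasEigenvector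
    have hs1 : d * (s : B) = t • (s : B) := congrArg Subtype.val hs.apply_eq_smul
    have hs0 : (s : B) ≠ 0 := fun h => hs.2 (Subtype.ext h)
    have hsj : j * (s : B) = s := s.2
    refine ⟨t, ?_⟩
    have hdt : d - t • j ∈ (Dj (F := F) j) := Submodule.sub_mem _ hd (Submodule.smul_mem _ t hjD)
    rcases hloc (d - t • j) with h | ⟨a', _, ha'⟩
    · rw [hDeq _ hdt] at h
      exact h
    · exfalso
      rw [hDeq _ hdt] at ha'
      apply hs0
      calc (s : B) = j * (s : B) := hsj.symm
        _ = (j * a' * j * (d - t • j)) * (s : B) := by rw [ha']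
        _ = j * a' * j * ((d - t • j) * (s : B)) := mul_assoc _ _ _
        _ = 0 := by rw [sub_mul, hs1, smul_mul_assoc, hsj, sub_self, mul_zero]
  -- (4)
  have hspan : ∀ d ∈ (Dj (F := F) j), σ * d = 0 →
      d ∈ Submodule.span F {b : B | ∃ v, ∃ e ∈ (Dj (F := F) j), b = lmV (F := F) α v e - e} := by
    intro d hd hd0
    set h : B → B := fun a => ∑ k, lam (y k * a) • (j * x k * j) with hh
    have hhD : ∀ a, h a ∈ (Dj (F := F) j) := fun a =>
      Submodule.sum_mem _ fun k _ => Submodule.smul_mem _ _ (hDmem (x k))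
    have e1 : d = ∑ v, α v * h (α v⁻¹ * d) := by
      have h1 := hRF.e1 d
      calc d = j * d * j := (hDeq d hd).symm
        _ = j * (∑ k, ∑ v, lam (α v⁻¹ * y k * d) • (x k * α v)) * j := by rw [h1]
        _ = ∑ k, ∑ v, lam (α v⁻¹ * y k * d) • (j * (x k * α v) * j) := by
            rw [Finset.mul_sum, Finset.sum_mul]
            refine Finset.sum_congr rfl fun k _ => ?_
            rw [Finset.mul_sum, Finset.sum_mul]
            exact Finset.sum_congr rfl fun v _ => by rw [mul_smul_comm, smul_mul_assoc]
        _ = ∑ v, ∑ k, lam (y k * (α v⁻¹ * d)) • (α v * (j * x k * j)) := by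
            rw [Finset.sum_comm]
            refine Finset.sum_congr rfl fun v _ => Finset.sum_congr rfl fun k _ => ?_
            have e2 : α v⁻¹ * y k * d = y k * (α v⁻¹ * d) := by rw [hcen v⁻¹ (y k), mul_assoc]
            have e3 : j * (x k * α v) * j = α v * (j * x k * j) := by
              rw [← hcen v (x k), ← mul_assoc j, ← hcen v j]
              simp only [mul_assoc]
            rw [e2, e3]
        _ = ∑ v, α v * h (α v⁻¹ * d) := by
            refine Finset.sum_congr rfl fun v _ => ?_
            rw [hh]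
            show _ = α v * ∑ k, lam (y k * (α v⁻¹ * d)) • (j * x k * j)
            rw [Finset.mul_sum]
            exact Finset.sum_congr rfl fun k _ => (mul_smul_comm _ _ _).symm
    have e4 : ∑ v, h (α v⁻¹ * d) = 0 := by
      have e5 : ∑ v, h (α v⁻¹ * d) = ∑ k, lam (y k * (σ * d)) • (j * x k * j) := by
        rw [hh]
        show ∑ v, ∑ k, lam (y k * (α v⁻¹ * d)) • (j * x k * j) = _
        rw [Finset.sum_comm]
        refine Finset.sum_congr rfl fun k _ => ?_
        have e7 : ∑ v, α v⁻¹ = σ := Equiv.sum_comp (Equiv.inv V) (fun v => α v)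
        rw [← Finset.sum_smul, ← map_sum, ← Finset.mul_sum, ← Finset.sum_mul, e7]
      rw [e5, hd0]
      simp
    have e6 : d = ∑ v, (lmV (F := F) α v (h (α v⁻¹ * d)) - h (α v⁻¹ * d)) := by
      rw [Finset.sum_sub_distrib, e4, sub_zero]
      exact e1
    rw [e6]
    exact Submodule.sum_mem _ fun v _ => Submodule.subset_span ⟨v, _, hhD _, rfl⟩
  -- stability
  have hstab : ∀ v, ∀ m ∈ (Dj (F := F) j), lmV (F := F) α v m ∈ (Dj (F := F) j) := by
    intro v m hm
    refine ⟨?_, ?_⟩
    · show j * (α v * m) = α v * m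
      rw [← mul_assoc, ← hcen v j, mul_assoc, hm.1]
    · show α v * m * j = α v * m
      rw [mul_assoc, hm.2]
  -- (5)
  have hD' : (Dj (F := F) j) ≤ Submodule.span F (Set.range fun v => α v * j) := by
    refine nak ℓ F V B (lmV α) (Dj j) _ hV hstab ?_ ?_
    · intro v m hm
      have hle : Submodule.span F (Set.range fun v => α v * j) ≤
          (Submodule.span F (Set.range fun v => α v * j)).comap (lmV (F := F) α v) := by
        rw [Submodule.span_le]
        rintro _ ⟨w, rfl⟩
        change α v * (α w * j) ∈ Submodule.span F (Set.range fun v => α v * j)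
        rw [← mul_assoc, ← map_mul]
        exact Submodule.subset_span ⟨v * w, rfl⟩
      exact hle hm
    · intro m hm
      obtain ⟨t, ht⟩ := heig m hm
      have hdt : m - t • j ∈ (Dj (F := F) j) := Submodule.sub_mem _ hm (Submodule.smul_mem _ t hjD)
      refine ⟨t • j, ?_, hspan _ hdt (hσn _ hdt ht)⟩
      refine Submodule.smul_mem _ t (Submodule.subset_span ⟨1, ?_⟩)
      show α 1 * j = j
      rw [map_one, one_mul]
  have hσj : σ * j ≠ 0 := by
    intro h0
    have hbot : (Dj (F := F) j) ≤ ⊥ := by
      refine nak ℓ F V B (lmV α) (Dj j) ⊥ hV hstab ?_ ?_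
      · intro v m hm
        rw [Submodule.mem_bot] at hm ⊢
        rw [hm, map_zero]
      · intro m hm
        obtain ⟨t, ht⟩ := heig m hm
        have hdt : m - t • j ∈ (Dj (F := F) j) :=
          Submodule.sub_mem _ hm (Submodule.smul_mem _ t hjD)
        have h1 := hσn _ hdt ht
        rw [mul_sub, mul_smul_comm, h0, smul_zero, sub_zero] at h1
        refine ⟨0, Submodule.zero_mem _, ?_⟩
        rw [sub_zero]
        exact hspan m hm h1
    exact hj0 ((Submodule.mem_bot F).mp (hbot hjD))
  refine ⟨fun a => ?_, ?_⟩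
  · have h1 := hD' (hDmem a)
    obtain ⟨c, hc⟩ := (Submodule.mem_span_range_iff_exists_fun F).mp h1
    exact ⟨c, hc.symm⟩
  · intro h0
    apply hσj
    have h1 : ∀ m, lam (σ * j * m) = 0 := by
      intro m
      obtain ⟨t, ht⟩ := heig _ (hDmem m)
      have hdt : j * m * j - t • j ∈ (Dj (F := F) j) :=
        Submodule.sub_mem _ (hDmem m) (Submodule.smul_mem _ t hjD)
      have h2 := hσn _ hdt ht
      have h3 : σ * (j * m * j) = t • (σ * j) := by
        rw [mul_sub, mul_smul_comm, sub_eq_zero] at h2
        exact h2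
      have h4 : lam (σ * j * m) = lam (σ * (j * m * j)) := by
        have e1 : σ * j * m = (σ * j) * (j * m) := by
          rw [mul_assoc σ j (j * m), ← mul_assoc j j m, hjj, mul_assoc]
        have e2 : σ * (j * m * j) = (j * m) * (σ * j) := by
          rw [← mul_assoc, hσc (j * m), mul_assoc]
        rw [e1, e2, hRF.sym]
      rw [h4, h3, map_smul, h0, smul_zero]
    have h5 := hRF.e2 (σ * j)
    rw [← h5]
    refine Finset.sum_eq_zero fun k _ => Finset.sum_eq_zero fun v _ => ?_
    rw [h1, zero_smul]

end Pool.Agent.PSS.H37
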